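import Pool.Agent.E8helper14.PA.Fin


/-!
# The tuples with dependent logarithms are the integral zeros of a polynomial with integral coefficients
-/

set_option autoImplicit false

open Module MvPolynomial Pool.Agent.E8helper14.PA

namespace Pool.Agent.L5helper62.AD

/-- the matrix with the entries `v (i, j)` -/
def mat {m N : ℕ} (v : Fin m × Fin N → ℤ) : Fin m → Fin N → ℤ := fun i j => v (i, j)

/-- from coefficients in a field of characteristic zero to integral coefficients -/
theorem descend {ι : Type} [Fintype ι] {K : Type*} [Field K] [CharZero K] (P : MvPolynomial ι K)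
    (ψ : K →ₗ[ℚ] ℚ) :
    ∃ (b : ℤ) (G : MvPolynomial ι ℤ), b ≠ 0 ∧ G.totalDegree ≤ P.totalDegree ∧ ∀ v : ι → ℤ,
      ((eval v G : ℤ) : ℚ) = b * ψ (eval (fun i => (v i : K)) P) := by
  classical
  obtain ⟨b, hb⟩ := IsLocalization.exist_integer_multiples_of_finset (nonZeroDivisors ℤ)
    (P.support.image fun d => ψ (coeff d P))
  have hb0 : ((b : ℤ)) ≠ 0 := nonZeroDivisors.coe_ne_zero b
  have h1 : ∀ d ∈ P.support, ∃ k : ℤ, (k : ℚ) = ((b : ℤ) : ℚ) * ψ (coeff d P) := by
    intro d hd
    obtain ⟨k, hk⟩ := hb _ (Finset.mem_image_of_mem _ hd)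
    refine ⟨k, ?_⟩
    simpa [zsmul_eq_mul] using hk
  choose! k hk using h1
  refine ⟨b, ∑ d ∈ P.support, monomial d (k d), hb0, ?_, fun v => ?_⟩
  · refine totalDegree_finsetSum_le fun d hd => (totalDegree_monomial_le _ _).trans ?_
    exact le_totalDegree hd
  have h2 : eval (fun i => (v i : K)) P =
      ∑ d ∈ P.support, ((∏ i, v i ^ d i : ℤ) : ℚ) • coeff d P := by
    rw [eval_eq']
    refine Finset.sum_congr rfl fun d _ => ?_
    rw [Rat.smul_def, mul_comm]
    push_cast
    rfl
  rw [h2, map_sum (eval v), Int.cast_sum, map_sum ψ, Finset.mul_sum]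
  refine Finset.sum_congr rfl fun d hd => ?_
  rw [eval_monomial, Finsupp.prod_fintype _ _ (fun i => pow_zero _), map_smul, smul_eq_mul, Int.cast_mul,
    hk d hd]
  ring

section

variable {K V : Type*} [Field K] [CharZero K] [AddCommGroup V] [Module K V]

omit [CharZero K] in
/-- the degree of a determinant of linear forms -/
theorem totalDegree_det_le {ι : Type} {m : ℕ} (M : Matrix (Fin m) (Fin m) (MvPolynomial ι K))
    (hM : ∀ i l, (M i l).totalDegree ≤ 1) : M.det.totalDegree ≤ m := by
  classical
  rw [Matrix.det_apply]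
  refine totalDegree_finsetSum_le fun σ _ => ?_
  rw [Units.smul_def]
  refine (totalDegree_smul_le _ _).trans ((totalDegree_finsetProd _ _).trans ?_)
  refine (Finset.sum_le_sum fun i _ => hM (σ i) i).trans ?_
  simp

/-- The coefficients `v` for which the `m` combinations are dependent. -/
def Dep (K : Type*) {V : Type*} [Field K] [AddCommGroup V] [Module K V] (m : ℕ) {N : ℕ} (φ : Fin N → V) :
    Set (Fin m × Fin N → ℤ) :=
  {v | ¬ LinearIndependent K fun i => icomb φ (mat v i)}

theorem separate {m N : ℕ} (φ : Fin N → V) {v₀ : Fin m × Fin N → ℤ} (hv : v₀ ∉ Dep K m φ) :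
    ∃ G : MvPolynomial (Fin m × Fin N) ℤ, G.totalDegree ≤ m ∧ eval v₀ G ≠ 0 ∧
      ∀ v ∈ Dep K m φ, eval v G = 0 := by
  classical
  have hli : LinearIndependent K fun i => icomb φ (mat v₀ i) := by
    by_contra h
    exact hv h
  obtain ⟨g, hg⟩ := LinearMap.exists_leftInverse_of_injective
    (Fintype.linearCombination K fun i => icomb φ (mat v₀ i))
    (LinearMap.ker_eq_bot.2 hli.fintypeLinearCombination_injective)
  obtain ⟨ψ, hψ⟩ := LinearMap.exists_leftInverse_of_injective (Algebra.linearMap ℚ K)
    (LinearMap.ker_eq_bot.2 (algebraMap ℚ K).injective)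
  let M : Matrix (Fin m) (Fin m) (MvPolynomial (Fin m × Fin N) K) :=
    Matrix.of fun i l => ∑ j, X (i, j) * C (g (φ j) l)
  have hM : ∀ v : Fin m × Fin N → ℤ, eval (fun i => (v i : K)) M.det =
      (Matrix.of fun i => g (icomb φ (mat v i))).det := by
    intro v
    rw [RingHom.map_det]
    congr 1
    ext i l
    rw [RingHom.mapMatrix_apply, Matrix.map_apply]
    simp only [M, Matrix.of_apply, map_sum, map_mul, eval_X, eval_C]
    rw [icomb, map_sum, Finset.sum_apply]
    refine Finset.sum_congr rfl fun j _ => ?_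
    rw [map_zsmul, Pi.smul_apply, zsmul_eq_mul]
    rfl
  obtain ⟨b, G, hb, hdeg, hG⟩ := descend M.det ψ
  refine ⟨G, hdeg.trans (totalDegree_det_le M fun i l => ?_), ?_, fun v hv' => ?_⟩
  · change (∑ j, (X (i, j) : MvPolynomial (Fin m × Fin N) K) * C (g (φ j) l)).totalDegree ≤ 1
    refine totalDegree_finsetSum_le fun j _ => (totalDegree_mul _ _).trans ?_
    rw [totalDegree_X, totalDegree_C]
  · intro h0
    have h1 := hG v₀
    rw [h0, hM] at h1
    have h2 : (Matrix.of fun i => g (icomb φ (mat v₀ i))) = (1 : Matrix (Fin m) (Fin m) K) := by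
      ext i l
      have h3 := LinearMap.congr_fun hg (Pi.single i 1)
      rw [LinearMap.comp_apply, Fintype.linearCombination_apply_single, one_smul, LinearMap.id_apply] at h3
      rw [Matrix.of_apply, h3, Matrix.one_apply, Pi.single_apply]
      simp only [eq_comm]
    rw [h2, Matrix.det_one] at h1
    have h4 : ψ 1 = 1 := by
      have := LinearMap.congr_fun hψ 1
      simpa using this
    rw [h4] at h1
    simp at h1
    exact hb (by exact_mod_cast h1.symm)
  · have h1 := hG v
    rw [hM] at h1
    have h2 : (Matrix.of fun i => g (icomb φ (mat v i))).det = 0 := by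
      by_contra h
      apply hv'
      have h3 := Matrix.linearIndependent_rows_of_det_ne_zero h
      exact LinearIndependent.of_comp g h3
    rw [h2, map_zero, mul_zero] at h1
    exact_mod_cast h1

/-- the zeros of finitely many polynomials -/
def Zer {ι : Type} (T : Finset (MvPolynomial ι ℤ)) : Set (ι → ℤ) := {v | ∀ G ∈ T, eval v G = 0}

/-- a set which is separated by polynomials from the points outside is the set of the zeros of finitely many -/
theorem eq_zer {ι : Type} [Finite ι] (B : Set (ι → ℤ)) (m : ℕ)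
    (h : ∀ v₀ ∉ B, ∃ G : MvPolynomial ι ℤ, G.totalDegree ≤ m ∧ eval v₀ G ≠ 0 ∧ ∀ v ∈ B, eval v G = 0) :
    ∃ T : Finset (MvPolynomial ι ℤ), (∀ G ∈ T, G.totalDegree ≤ m) ∧ B = Zer T := by
  classical
  let Q : Set (MvPolynomial ι ℤ) := {G | G.totalDegree ≤ m ∧ ∀ v ∈ B, eval v G = 0}
  obtain ⟨T, hTQ, hT⟩ := (Submodule.fg_span_iff_fg_span_finset_subset Q).1
    (IsNoetherian.noetherian (Submodule.span (MvPolynomial ι ℤ) Q))
  refine ⟨T, fun G hG => (hTQ hG).1, Set.Subset.antisymm (fun v hv G hG => ?_) fun v hv => ?_⟩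
  · exact (hTQ hG).2 v hv
  · by_contra hv'
    obtain ⟨G, hdeg, hG, hG'⟩ := h v hv'
    apply hG
    have h1 : G ∈ Submodule.span (MvPolynomial ι ℤ) Q := Submodule.subset_span ⟨hdeg, hG'⟩
    rw [hT] at h1
    have key : ∀ x ∈ Submodule.span (MvPolynomial ι ℤ) (T : Set (MvPolynomial ι ℤ)), eval v x = 0 := by
      intro x hx
      induction hx using Submodule.span_induction with
      | mem x hx => exact hv x hx
      | zero => exact map_zero _
      | add x y _ _ hx hy => rw [map_add, hx, hy, add_zero]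
      | smul a x _ hx => rw [smul_eq_mul, map_mul, hx, mul_zero]
    exact key G h1

end

end Pool.Agent.L5helper62.AD
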