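import Pool.Agent.E8helper14.PA.Fin

/-!
# Counting dependent tuples of integer combinations with coefficients in an arbitrary finite set of integers
(the counting argument of `Pool.Agent.E8helper14.PA.Count`, for arbitrary sets in place of intervals)
-/

set_option autoImplicit false

open Module Finset Pool.Agent.E8helper14.PA

namespace Pool.Agent.L5helper62.AD

/-- The `m × N` matrices with entries in `S`. -/
def grid (m N : ℕ) (S : Finset ℤ) : Finset (Fin m → Fin N → ℤ) :=
  Fintype.piFinset fun _ => Fintype.piFinset fun _ => S

theorem card_row' (N : ℕ) (S : Finset ℤ) :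
    (Fintype.piFinset fun _ : Fin N => S).card = S.card ^ N := by
  rw [Fintype.card_piFinset, Finset.prod_const, Finset.card_univ, Fintype.card_fin]

theorem card_grid (m N : ℕ) (S : Finset ℤ) : (grid m N S).card = S.card ^ (m * N) := by
  rw [grid, Fintype.card_piFinset, Finset.prod_const, card_row', Finset.card_univ, Fintype.card_fin,
    ← pow_mul, Nat.mul_comm N m]

/-- A rational subspace of dimension `d` contains at most `|S|^d` points with coordinates in `S`. -/
theorem card_subspace' {N : ℕ} (U : Submodule ℚ (Fin N → ℚ)) (S : Finset ℤ) (hS0 : S.Nonempty)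
    (T : Finset (Fin N → ℤ)) (hT : ∀ k ∈ T, (∀ j, k j ∈ S) ∧ (fun j => (k j : ℚ)) ∈ U) :
    T.card ≤ S.card ^ finrank ℚ U := by
  classical
  let v : Fin N → Module.Dual ℚ U := fun j => (LinearMap.proj j).comp U.subtype
  obtain ⟨κ, a, ha, hspan, hli⟩ := exists_linearIndependent' ℚ v
  have : Finite κ := Finite.of_injective a ha
  have : Fintype κ := Fintype.ofFinite κ
  have hcard : Fintype.card κ ≤ finrank ℚ U := by
    rw [← Subspace.dual_finrank_eq (K := ℚ) (V := U)]
    exact hli.fintype_card_le_finrank
  have h1 : T.card ≤ (Fintype.piFinset fun _ : κ => S).card := by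
    refine Finset.card_le_card_of_injOn (fun k c => k (a c)) ?_ ?_
    · intro k hk
      simp only [Finset.mem_coe, Fintype.mem_piFinset]
      intro c
      exact (hT k hk).1 (a c)
    · intro k hk k' hk' heq
      have hu := U.sub_mem (hT k hk).2 (hT k' hk').2
      set u : U := ⟨_, hu⟩ with hu'
      have hz : ∀ w ∈ Submodule.span ℚ (Set.range v), w u = 0 := by
        intro w hw
        rw [← hspan] at hw
        induction hw using Submodule.span_induction with
        | mem x hx =>
          obtain ⟨c, rfl⟩ := hx
          have h2 : k (a c) = k' (a c) := congrFun heq c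
          simp [v, hu', h2]
        | zero => rfl
        | add x y _ _ hx hy => rw [LinearMap.add_apply, hx, hy, add_zero]
        | smul q x _ hx => rw [LinearMap.smul_apply, hx, smul_zero]
      funext j
      have h3 := hz (v j) (Submodule.subset_span ⟨j, rfl⟩)
      have h4 : (k j : ℚ) - (k' j : ℚ) = 0 := by simpa [v, hu'] using h3
      exact_mod_cast sub_eq_zero.1 h4
  refine h1.trans ?_
  rw [Fintype.card_piFinset, Finset.prod_const, Finset.card_univ]
  exact Nat.pow_le_pow_right hS0.card_pos hcard

/-- A union bound. -/
theorem count_union' {m N : ℕ} (S : Finset ℤ) (P : Fin m → (Fin m → Fin N → ℤ) → Prop) (B : ℕ)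
    [DecidablePred fun k => ∃ i, P i k]
    (hP : ∀ i, ∀ k₀ : Fin m → Fin N → ℤ, ∀ T : Finset (Fin m → Fin N → ℤ),
      (∀ k ∈ T, k ∈ grid m N S ∧ P i k ∧ Function.update k i 0 = k₀) → T.card ≤ B) :
    ((grid m N S).filter (fun k => ∃ i, P i k)).card ≤ m * (B * S.card ^ ((m - 1) * N)) := by
  classical
  have h1 : (grid m N S).filter (fun k => ∃ i, P i k) ⊆
      (Finset.univ : Finset (Fin m)).biUnion fun i => (grid m N S).filter (fun k => P i k) := by
    intro k hk
    rw [Finset.mem_filter] at hk
    obtain ⟨hk, i, hi⟩ := hk
    exact Finset.mem_biUnion.2 ⟨i, Finset.mem_univ i, Finset.mem_filter.2 ⟨hk, hi⟩⟩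
  refine (Finset.card_le_card h1).trans (Finset.card_biUnion_le.trans ?_)
  have h2 : ∀ i ∈ (Finset.univ : Finset (Fin m)),
      ((grid m N S).filter (fun k => P i k)).card ≤ B * S.card ^ ((m - 1) * N) := by
    intro i _
    let T : Finset (Fin m → Fin N → ℤ) := Fintype.piFinset fun j =>
      if j = i then {0} else Fintype.piFinset fun _ : Fin N => S
    have hT : T.card = S.card ^ ((m - 1) * N) := by
      have h3 : ∀ j : Fin m, (if j = i then ({0} : Finset (Fin N → ℤ)) else
          Fintype.piFinset fun _ : Fin N => S).card =
          if j = i then 1 else S.card ^ N := by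
        intro j
        split_ifs
        · exact Finset.card_singleton _
        · exact card_row' N S
      rw [Fintype.card_piFinset]
      simp_rw [h3]
      rw [Finset.prod_ite, Finset.prod_const_one, one_mul, Finset.prod_const, ← pow_mul]
      have h4 : (Finset.univ.filter fun j : Fin m => ¬ j = i).card = m - 1 := by
        rw [Finset.filter_ne', Finset.card_erase_of_mem (Finset.mem_univ i), Finset.card_univ,
          Fintype.card_fin]
      rw [h4, Nat.mul_comm N (m - 1)]
    rw [← hT]
    refine Finset.card_le_mul_card_image_of_maps_to (f := fun k => Function.update k i 0) ?_ B ?_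
    · intro k hk
      rw [Finset.mem_filter, grid, Fintype.mem_piFinset] at hk
      rw [Fintype.mem_piFinset]
      intro j
      by_cases hj : j = i
      · subst hj
        simp
      · rw [if_neg hj, Function.update_of_ne hj]
        exact hk.1 j
    · intro k₀ _
      refine hP i k₀ _ fun k hk => ?_
      rw [Finset.mem_filter, Finset.mem_filter] at hk
      exact ⟨hk.1.1, hk.1.2, hk.2⟩
  refine (Finset.sum_le_sum h2).trans ?_
  rw [Finset.sum_const, Finset.card_univ, Fintype.card_fin, smul_eq_mul]

section Vectors

variable {K V : Type*} [Field K] [AddCommGroup V] [Module K V] [CharZero K] [Module ℚ V]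
  [IsScalarTower ℚ K V]

/-- The number of the matrices with entries in `S` that give linearly dependent tuples. -/
theorem count_dependent' {m N : ℕ} (S : Finset ℤ) (hS0 : S.Nonempty) (φ : Fin N → V) (κ : ℕ)
    [DecidablePred fun k : Fin m → Fin N → ℤ => ¬ LinearIndependent K fun i => icomb φ (k i)]
    (hκ : ∀ (i : Fin m) (k : Fin m → Fin N → ℤ),
      finrank ℚ (relSpace φ (Submodule.span K ((fun j => icomb φ (k j)) '' Set.Iio i))) ≤ κ) :
    ((grid m N S).filter fun k => ¬ LinearIndependent K fun i => icomb φ (k i)).card ≤
      m * S.card ^ ((m - 1) * N + κ) := by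
  classical
  let P : Fin m → (Fin m → Fin N → ℤ) → Prop := fun i k =>
    icomb φ (k i) ∈ Submodule.span K ((fun j => icomb φ (k j)) '' Set.Iio i)
  have h1 : ((grid m N S).filter fun k => ¬ LinearIndependent K fun i => icomb φ (k i)) ⊆
      (grid m N S).filter (fun k => ∃ i, P i k) := by
    intro k hk
    rw [Finset.mem_filter] at hk ⊢
    exact ⟨hk.1, exists_mem_span _ hk.2⟩
  refine (Finset.card_le_card h1).trans
    ((count_union' S P (S.card ^ κ) fun i k₀ T hT => ?_).trans_eq ?_)
  · set W := Submodule.span K ((fun j => icomb φ (k₀ j)) '' Set.Iio i) with hW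
    have hW' : ∀ k ∈ T, Submodule.span K ((fun j => icomb φ (k j)) '' Set.Iio i) = W := by
      intro k hk
      rw [hW]
      congr 1
      refine Set.image_congr fun j hj => ?_
      have hne : j ≠ i := ne_of_lt hj
      have h2 : k₀ j = k j := by
        rw [← (hT k hk).2.2, Function.update_of_ne hne]
      rw [h2]
    have hinj : Set.InjOn (fun k : Fin m → Fin N → ℤ => k i) T := by
      intro k hk k' hk' heq
      have h3 : Function.update k i 0 = Function.update k' i 0 := by
        rw [(hT k hk).2.2, (hT k' hk').2.2]
      funext j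
      by_cases hj : j = i
      · subst hj
        exact heq
      · have h4 := congrFun h3 j
        rwa [Function.update_of_ne hj, Function.update_of_ne hj] at h4
    rw [← Finset.card_image_of_injOn hinj]
    refine (card_subspace' (relSpace φ W) S hS0 _ ?_).trans
      (Nat.pow_le_pow_right hS0.card_pos (hκ i k₀))
    intro c hc
    obtain ⟨k, hk, rfl⟩ := Finset.mem_image.1 hc
    have hb := (hT k hk).1
    rw [grid, Fintype.mem_piFinset] at hb
    refine ⟨fun j => Fintype.mem_piFinset.1 (hb i) j, ?_⟩
    have hPk := (hT k hk).2.1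
    change icomb φ (k i) ∈ Submodule.span K ((fun j => icomb φ (k j)) '' Set.Iio i) at hPk
    rw [hW' k hk] at hPk
    exact (icomb_mem φ W (k i)).1 hPk
  · rw [← pow_add, add_comm κ]

end Vectors

section AV

open Pool.Agent.E8helper40.PC

variable {p : ℕ} [Fact p.Prime] {n : ℕ} (A : SimpleAbelianVariety p n)

/-- The number of the matrices with entries in `S` whose rows do not give independent logarithms. -/
theorem count_logs (F : Subfield A.End) (hF : Commutative A F) {N : ℕ} (e : Fin N → A.Pts)
    (he : Independent A e) (m : ℕ) (S : Finset ℤ) (hS0 : S.Nonempty)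
    [DecidablePred fun k : Fin m → Fin N → ℤ => ¬ LinearIndependent ℚ_[p] fun i => icomb (logs A e) (k i)] :
    ((grid m N S).filter fun k => ¬ LinearIndependent ℚ_[p] fun i => icomb (logs A e) (k i)).card ≤
      m * S.card ^ ((m - 1) * (N + spanDim A F e)) := by
  refine (count_dependent' S hS0 (logs A e) ((m - 1) * spanDim A F e) fun i k => ?_).trans_eq ?_
  · refine (rel_bound A F hF e he _).trans ?_
    exact Nat.mul_le_mul_right _ (finrank_span_Iio _ i)
  · rw [← Nat.mul_add]

end AV

end Pool.Agent.L5helper62.AD
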