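import Mathlib

/-!
# Sparse sets of integral points and the neighbourhoods of almost all rays
-/

set_option autoImplicit false

open MeasureTheory Filter Topology

namespace Pool.Agent.L5helper62.AD

/-- the points of `Z` with coordinates of absolute value at most `H` -/
def inBox {ι : Type} (Z : Set (ι → ℤ)) (H : ℕ) : Set (ι → ℤ) := {v | v ∈ Z ∧ ∀ i, |v i| ≤ (H : ℤ)}

theorem inBox_finite {ι : Type} [Fintype ι] (Z : Set (ι → ℤ)) (H : ℕ) : (inBox Z H).Finite := by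
  classical
  refine (Fintype.piFinset fun _ : ι => Finset.Icc (-(H : ℤ)) H).finite_toSet.subset ?_
  intro v hv
  rw [Finset.mem_coe, Fintype.mem_piFinset]
  exact fun i => Finset.mem_Icc.2 (abs_le.1 (hv.2 i))

/-- the discretisation of the ray -/
theorem near_power {δ T : ℝ} (h0 : 0 ≤ δ) (h1 : δ < 1) (hT : 1 ≤ T) :
    (1 : ℝ) ≤ ⌊T ^ (1 - δ)⌋₊ ∧ ((⌊T ^ (1 - δ)⌋₊ : ℕ) : ℝ) ^ (1 / (1 - δ)) ≤ T ∧
      T - ((⌊T ^ (1 - δ)⌋₊ : ℕ) : ℝ) ^ (1 / (1 - δ)) ≤ 1 / (1 - δ) * T ^ δ ∧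
      T ^ δ ≤ 2 ^ (δ / (1 - δ)) * ((⌊T ^ (1 - δ)⌋₊ : ℕ) : ℝ) ^ (δ / (1 - δ)) := by
  have hd : 0 < 1 - δ := by linarith
  have hT0 : 0 < T := by linarith
  set u := T ^ (1 - δ) with hu
  have hu1 : 1 ≤ u := Real.one_le_rpow hT hd.le
  have hu0 : 0 < u := by linarith
  have hn1 : (1 : ℝ) ≤ (⌊u⌋₊ : ℕ) := by
    have : 1 ≤ ⌊u⌋₊ := Nat.le_floor (by exact_mod_cast hu1)
    exact_mod_cast this
  have hnu : ((⌊u⌋₊ : ℕ) : ℝ) ≤ u := Nat.floor_le hu0.le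
  have hun : u < ((⌊u⌋₊ : ℕ) : ℝ) + 1 := Nat.lt_floor_add_one u
  set n : ℝ := ((⌊u⌋₊ : ℕ) : ℝ) with hn
  have hγ1 : 1 ≤ 1 / (1 - δ) := by
    rw [le_div_iff₀ hd]
    linarith
  have hγ0 : 0 ≤ 1 / (1 - δ) := by positivity
  have huT : u ^ (1 / (1 - δ)) = T := by
    rw [hu, ← Real.rpow_mul hT0.le, mul_one_div_cancel hd.ne', Real.rpow_one]
  have hTu : T / u = T ^ δ := by
    rw [hu]
    nth_rewrite 1 [← Real.rpow_one T]
    rw [← Real.rpow_sub hT0]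
    congr 1
    ring
  refine ⟨hn1, ?_, ?_, ?_⟩
  · calc n ^ (1 / (1 - δ)) ≤ u ^ (1 / (1 - δ)) := Real.rpow_le_rpow (by linarith) hnu hγ0
      _ = T := huT
  · have h2 : 1 + 1 / (1 - δ) * (-(1 / u)) ≤ (1 + -(1 / u)) ^ (1 / (1 - δ)) := by
      apply one_add_mul_self_le_rpow_one_add _ hγ1
      rw [neg_le_neg_iff, div_le_one hu0]
      exact hu1
    have h3 : (1 + -(1 / u)) ^ (1 / (1 - δ)) ≤ (n / u) ^ (1 / (1 - δ)) := by
      refine Real.rpow_le_rpow ?_ ?_ hγ0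
      · have : 1 / u ≤ 1 := (div_le_one hu0).2 hu1
        linarith
      · rw [le_div_iff₀ hu0, add_mul, neg_mul, one_div_mul_cancel hu0.ne']
        linarith
    have h4 : (n / u) ^ (1 / (1 - δ)) * T = n ^ (1 / (1 - δ)) := by
      rw [Real.div_rpow (by linarith) hu0.le, huT, div_mul_cancel₀ _ hT0.ne']
    have h5 := mul_le_mul_of_nonneg_right (h2.trans h3) hT0.le
    rw [h4] at h5
    have h6 : (1 + 1 / (1 - δ) * (-(1 / u))) * T = T - 1 / (1 - δ) * (T / u) := by ring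
    rw [h6, hTu] at h5
    linarith
  · have h2 : T ^ δ = u ^ (δ / (1 - δ)) := by
      rw [hu, ← Real.rpow_mul hT0.le, mul_div_cancel₀ _ hd.ne']
    rw [h2, ← Real.mul_rpow (by norm_num) (by linarith)]
    refine Real.rpow_le_rpow hu0.le ?_ (by positivity)
    linarith

variable {ι : Type} [Fintype ι]

/-- one point of the ray -/
theorem volume_near (Z : Set (ι → ℤ)) (H : ℕ) {a r : ℝ} (ha : 0 < a) (hr : 0 ≤ r) :
    volume {ξ : ι → ℝ | ∃ v ∈ inBox Z H, ∀ i, |(v i : ℝ) - a * ξ i| ≤ r} ≤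
      ENNReal.ofReal ((inBox Z H).ncard * (2 * (r / a)) ^ Fintype.card ι) := by
  classical
  have hfin := inBox_finite Z H
  have hsub : {ξ : ι → ℝ | ∃ v ∈ inBox Z H, ∀ i, |(v i : ℝ) - a * ξ i| ≤ r} ⊆
      ⋃ v ∈ hfin.toFinset, Set.Icc (fun i => ((v i : ℝ) - r) / a) (fun i => ((v i : ℝ) + r) / a) := by
    rintro ξ ⟨v, hv, h⟩
    refine Set.mem_iUnion₂.2 ⟨v, hfin.mem_toFinset.2 hv, ?_⟩
    rw [Set.mem_Icc]
    constructor
    · intro i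
      have := abs_le.1 (h i)
      change ((v i : ℝ) - r) / a ≤ ξ i
      rw [div_le_iff₀ ha]
      linarith
    · intro i
      have := abs_le.1 (h i)
      change ξ i ≤ ((v i : ℝ) + r) / a
      rw [le_div_iff₀ ha]
      linarith
  refine (measure_mono hsub).trans ((measure_biUnion_finset_le _ _).trans ?_)
  have h1 : ∀ v ∈ hfin.toFinset, volume (Set.Icc (fun i : ι => ((v i : ℝ) - r) / a)
      (fun i => ((v i : ℝ) + r) / a)) = ENNReal.ofReal ((2 * (r / a)) ^ Fintype.card ι) := by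
    intro v _
    rw [Real.volume_Icc_pi]
    have h2 : ∀ i : ι, ENNReal.ofReal (((v i : ℝ) + r) / a - ((v i : ℝ) - r) / a) =
        ENNReal.ofReal (2 * (r / a)) := by
      intro i
      congr 1
      ring
    simp_rw [h2]
    rw [Finset.prod_const, Finset.card_univ, ENNReal.ofReal_pow (by positivity)]
  rw [Finset.sum_congr rfl h1, Finset.sum_const, ← Set.ncard_eq_toFinset_card _ hfin, nsmul_eq_mul,
    ENNReal.ofReal_mul (Nat.cast_nonneg _), ENNReal.ofReal_natCast]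

/-- **No point of a sparse set near almost all rays.** -/
theorem metric (Z : Set (ι → ℤ)) (C θ : ℕ) (hZ : ∀ H : ℕ, (inBox Z H).ncard ≤ C * (2 * H + 1) ^ θ)
    (δ : ℝ) (h0 : 0 ≤ δ) (h1 : δ < 1) (h : (θ : ℝ) < (1 - δ) * ((Fintype.card ι : ℝ) - 1)) :
    ∀ᵐ ξ : ι → ℝ, ∃ T₀ : ℝ, ∀ T : ℝ, T₀ ≤ T → ∀ v ∈ Z, ¬ ∀ i, |(v i : ℝ) - T * ξ i| ≤ T ^ δ := by
  have hd : 0 < 1 - δ := by linarith
  suffices H : ∀ R : ℕ, ∀ᵐ ξ : ι → ℝ, (∀ i, |ξ i| ≤ R) → ∃ T₀ : ℝ, ∀ T : ℝ, T₀ ≤ T → ∀ v ∈ Z,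
      ¬ ∀ i, |(v i : ℝ) - T * ξ i| ≤ T ^ δ by
    filter_upwards [ae_all_iff.2 H] with ξ hξ
    obtain ⟨R, hR⟩ := exists_nat_ge (∑ i, |ξ i|)
    exact hξ R fun i => (Finset.single_le_sum (f := fun i => |ξ i|) (fun j _ => abs_nonneg _)
      (Finset.mem_univ i)).trans hR
  intro R
  set γ : ℝ := 1 / (1 - δ) with hγ
  set β : ℝ := δ / (1 - δ) with hβ
  have hγ0 : 0 < γ := by positivity
  have hβ0 : 0 ≤ β := by positivity
  have hβγ : β - γ = -1 := by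
    rw [hβ, hγ, ← sub_div, ← neg_sub, neg_div, div_self hd.ne']
  have hβle : β ≤ γ := by linarith
  set K : ℝ := (1 + γ * R) * 2 ^ β with hK
  have hK0 : 0 < K := by positivity
  set L : ℝ := R + K with hL
  have hL0 : 0 < L := by positivity
  let Hn : ℕ → ℕ := fun n => ⌈L * ((n : ℝ) + 1) ^ γ⌉₊
  let E : ℕ → Set (ι → ℝ) := fun n =>
    {ξ | ∃ v ∈ inBox Z (Hn n), ∀ i, |(v i : ℝ) - ((n : ℝ) + 1) ^ γ * ξ i| ≤ K * ((n : ℝ) + 1) ^ β}
  have hE : ∀ n, volume (E n) ≤ ENNReal.ofReal ((C * (2 * L + 3) ^ θ * (2 * K) ^ Fintype.card ι) *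
      ((n : ℝ) + 1) ^ (γ * θ - Fintype.card ι)) := by
    intro n
    have hx1 : (1 : ℝ) ≤ (n : ℝ) + 1 := by linarith [(Nat.cast_nonneg n : (0 : ℝ) ≤ n)]
    have hx0 : (0 : ℝ) < (n : ℝ) + 1 := by linarith
    refine (volume_near Z (Hn n) (Real.rpow_pos_of_pos hx0 γ) (by positivity)).trans
      (ENNReal.ofReal_le_ofReal ?_)
    have e1 : K * ((n : ℝ) + 1) ^ β / ((n : ℝ) + 1) ^ γ = K * ((n : ℝ) + 1) ^ (-1 : ℝ) := by
      rw [mul_div_assoc, ← Real.rpow_sub hx0, hβγ]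
    have e2 : ((inBox Z (Hn n)).ncard : ℝ) ≤ C * (2 * L + 3) ^ θ * ((n : ℝ) + 1) ^ (γ * θ) := by
      have a1 : ((inBox Z (Hn n)).ncard : ℝ) ≤ C * (2 * (Hn n : ℝ) + 1) ^ θ := by
        exact_mod_cast hZ (Hn n)
      have hxg : 1 ≤ ((n : ℝ) + 1) ^ γ := Real.one_le_rpow hx1 hγ0.le
      have a2 : 2 * (Hn n : ℝ) + 1 ≤ (2 * L + 3) * ((n : ℝ) + 1) ^ γ := by
        have a3 : (Hn n : ℝ) < L * ((n : ℝ) + 1) ^ γ + 1 := Nat.ceil_lt_add_one (by positivity)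
        nlinarith
      refine a1.trans ?_
      rw [Real.rpow_mul hx0.le, Real.rpow_natCast, mul_assoc, ← mul_pow]
      exact mul_le_mul_of_nonneg_left (pow_le_pow_left₀ (by positivity) a2 θ) (Nat.cast_nonneg C)
    calc ((inBox Z (Hn n)).ncard : ℝ) * (2 * (K * ((n : ℝ) + 1) ^ β / ((n : ℝ) + 1) ^ γ)) ^ Fintype.card ι
        ≤ (C * (2 * L + 3) ^ θ * ((n : ℝ) + 1) ^ (γ * θ)) *
          (2 * (K * ((n : ℝ) + 1) ^ β / ((n : ℝ) + 1) ^ γ)) ^ Fintype.card ι :=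
        mul_le_mul_of_nonneg_right e2 (by positivity)
      _ = (C * (2 * L + 3) ^ θ * (2 * K) ^ Fintype.card ι) *
          ((n : ℝ) + 1) ^ (γ * θ - Fintype.card ι) := by
        rw [e1, ← mul_assoc 2 K, mul_pow (2 * K), ← Real.rpow_natCast (((n : ℝ) + 1) ^ (-1 : ℝ)),
          ← Real.rpow_mul hx0.le, Real.rpow_sub hx0, Real.rpow_natCast]
        rw [show (-1 : ℝ) * (Fintype.card ι : ℝ) = -(Fintype.card ι : ℝ) by ring,
          Real.rpow_neg hx0.le, Real.rpow_natCast]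
        ring
  have hsum : Summable fun n : ℕ => (C * (2 * L + 3) ^ θ * (2 * K) ^ Fintype.card ι) *
      ((n : ℝ) + 1) ^ (γ * θ - Fintype.card ι) := by
    refine Summable.mul_left _ ?_
    have hlt : γ * θ - (Fintype.card ι : ℝ) < -1 := by
      have : γ * θ < (Fintype.card ι : ℝ) - 1 := by
        rw [hγ, one_div, inv_mul_lt_iff₀ hd]
        exact h
      linarith
    have h2 := (summable_nat_add_iff 1).2 (Real.summable_nat_rpow.2 hlt)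
    simpa using h2
  have hbc := ae_eventually_notMem (μ := (volume : Measure (ι → ℝ))) (s := E)
    (ne_top_of_le_ne_top hsum.tsum_ofReal_ne_top (ENNReal.tsum_le_tsum hE))
  filter_upwards [hbc] with ξ hξ hR
  obtain ⟨N₀, hN₀⟩ := eventually_atTop.1 hξ
  refine ⟨max 1 (((N₀ : ℝ) + 2) ^ γ), fun T hT v hv hnear => ?_⟩
  have hT1 : 1 ≤ T := (le_max_left _ _).trans hT
  have hT0 : 0 < T := by linarith
  obtain ⟨b1, b2, b3, b4⟩ := near_power h0 h1 hT1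
  have hN : N₀ + 1 < ⌊T ^ (1 - δ)⌋₊ + 1 := by
    have c1 : (N₀ : ℝ) + 2 ≤ T ^ (1 - δ) := by
      have c2 := Real.rpow_le_rpow (by positivity) ((le_max_right _ _).trans hT) hd.le
      rw [← Real.rpow_mul (by positivity), hγ, one_div_mul_cancel hd.ne', Real.rpow_one] at c2
      exact c2
    have c3 : N₀ + 2 ≤ ⌊T ^ (1 - δ)⌋₊ := Nat.le_floor (by exact_mod_cast c1)
    omega
  obtain ⟨n, hn⟩ : ∃ n : ℕ, ⌊T ^ (1 - δ)⌋₊ = n + 1 := ⟨⌊T ^ (1 - δ)⌋₊ - 1, by omega⟩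
  rw [hn] at b1 b2 b3 b4 hN
  push_cast at b1 b2 b3 b4
  refine hN₀ n (by omega) ?_
  have hx0 : (0 : ℝ) < (n : ℝ) + 1 := by positivity
  have hx1 : (1 : ℝ) ≤ (n : ℝ) + 1 := b1
  have hTn : T ^ δ ≤ 2 ^ β * ((n : ℝ) + 1) ^ β := b4
  have hclose : ∀ i, |(v i : ℝ) - ((n : ℝ) + 1) ^ γ * ξ i| ≤ K * ((n : ℝ) + 1) ^ β := by
    intro i
    have d1 : |(v i : ℝ) - ((n : ℝ) + 1) ^ γ * ξ i| ≤
        |(v i : ℝ) - T * ξ i| + |T - ((n : ℝ) + 1) ^ γ| * |ξ i| := by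
      rw [← abs_mul]
      refine le_trans (le_of_eq ?_) (abs_add_le _ _)
      congr 1
      ring
    have d2 : |T - ((n : ℝ) + 1) ^ γ| ≤ γ * T ^ δ := by
      rw [abs_of_nonneg (by linarith)]
      exact b3
    have d3 : |T - ((n : ℝ) + 1) ^ γ| * |ξ i| ≤ γ * T ^ δ * R :=
      mul_le_mul d2 (hR i) (abs_nonneg _) (by positivity)
    calc |(v i : ℝ) - ((n : ℝ) + 1) ^ γ * ξ i| ≤ T ^ δ + γ * T ^ δ * R := d1.trans (add_le_add (hnear i) d3)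
      _ = (1 + γ * R) * T ^ δ := by ring
      _ ≤ (1 + γ * R) * (2 ^ β * ((n : ℝ) + 1) ^ β) := mul_le_mul_of_nonneg_left hTn (by positivity)
      _ = K * ((n : ℝ) + 1) ^ β := by rw [hK]; ring
  refine ⟨v, ⟨hv, fun i => ?_⟩, hclose⟩
  have e1 : |(v i : ℝ)| ≤ L * ((n : ℝ) + 1) ^ γ := by
    have f1 : |(v i : ℝ)| ≤ |(v i : ℝ) - ((n : ℝ) + 1) ^ γ * ξ i| + ((n : ℝ) + 1) ^ γ * |ξ i| := by
      have f2 := abs_add_le ((v i : ℝ) - ((n : ℝ) + 1) ^ γ * ξ i) (((n : ℝ) + 1) ^ γ * ξ i)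
      rw [sub_add_cancel, abs_mul, abs_of_nonneg (Real.rpow_nonneg hx0.le γ)] at f2
      exact f2
    have f3 : ((n : ℝ) + 1) ^ β ≤ ((n : ℝ) + 1) ^ γ := Real.rpow_le_rpow_of_exponent_le hx1 hβle
    have f4 : ((n : ℝ) + 1) ^ γ * |ξ i| ≤ ((n : ℝ) + 1) ^ γ * R :=
      mul_le_mul_of_nonneg_left (hR i) (Real.rpow_nonneg hx0.le γ)
    have f5 : K * ((n : ℝ) + 1) ^ β ≤ K * ((n : ℝ) + 1) ^ γ := mul_le_mul_of_nonneg_left f3 hK0.le
    rw [hL]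
    have := hclose i
    linarith
  have e2 : |(v i : ℝ)| ≤ ((Hn n : ℕ) : ℝ) := e1.trans (Nat.le_ceil _)
  have e3 : ((|v i| : ℤ) : ℝ) ≤ (((Hn n : ℕ) : ℤ) : ℝ) := by
    rw [Int.cast_abs]
    exact_mod_cast e2
  exact_mod_cast e3

end Pool.Agent.L5helper62.AD
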