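import Pool.Agent.L5helper62.AD.Alg
import Pool.Agent.L5helper62.AD.Grid
import Pool.Agent.L5helper62.AD.Met

/-!
# Tuples of rational points of a simple abelian variety: all finite sets of coefficients, typical sequences, almost
every direction
-/

set_option autoImplicit false

open Module MvPolynomial MeasureTheory Pool.Agent.E8helper40.PC Pool.Agent.E8helper14.PA

namespace Pool.Agent.L5helper62.AD

theorem countable_poly (ι : Type) [Finite ι] : Countable (MvPolynomial ι ℤ) := by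
  rw [← Cardinal.mk_le_aleph0_iff]
  refine MvPolynomial.cardinalMk_le_max.trans ?_
  simp

section

variable {p : ℕ} [Fact p.Prime] {n : ℕ} (A : SimpleAbelianVariety p n)

/-- The converse of `good_of_independent`. -/
theorem good_iff {m N : ℕ} (e : Fin N → A.Pts) (k : Fin m → Fin N → ℤ) :
    GoodTuple A e k ↔ LinearIndependent ℚ_[p] fun i => icomb (logs A e) (k i) := by
  refine ⟨fun h => ?_, good_of_independent A e k⟩
  have h0 : ∀ i : Fin m, IsOfFinAddOrder ((0 : Fin m → A.Pts) i) := fun i => IsOfFinAddOrder.zero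
  have h1 := rank_closure A _ (h 0 h0)
  have h2 : logSpan A (tupleGroup A e 0 k) =
      Submodule.span ℚ_[p] (Set.range fun i => icomb (logs A e) (k i)) := by
    rw [tupleGroup, logSpan_closure, ← Set.range_comp]
    congr 2
    funext i
    exact log_point A e (k i) (h0 i)
  rw [h2] at h1
  rw [linearIndependent_iff_card_eq_finrank_span, Fintype.card_fin, Set.finrank]
  exact h1

theorem bad_eq {m N : ℕ} (e : Fin N → A.Pts) :
    {v : Fin m × Fin N → ℤ | ¬ GoodTuple A e (mat v)} = Dep ℚ_[p] m (logs A e) := by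
  ext v
  exact not_congr (good_iff A e (mat v))

theorem bad_zer {m N : ℕ} (e : Fin N → A.Pts) :
    ∃ T : Finset (MvPolynomial (Fin m × Fin N) ℤ), (∀ G ∈ T, G.totalDegree ≤ m) ∧
      {v | ¬ GoodTuple A e (mat v)} = Zer T := by
  rw [bad_eq]
  exact eq_zer _ m fun v₀ hv => separate (logs A e) hv

open Classical in
theorem count_grid (F : Subfield A.End) (hF : Commutative A F) {m N : ℕ} (e : Fin N → A.Pts)
    (he : Independent A e) (S : Finset ℤ) (hS : S.Nonempty) :
    ((Fintype.piFinset fun _ : Fin m × Fin N => S).filter fun v => ¬ GoodTuple A e (mat v)).card ≤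
      m * S.card ^ ((m - 1) * (N + spanDim A F e)) := by
  refine le_trans ?_ (count_logs A F hF e he m S hS)
  refine Finset.card_le_card_of_injOn mat ?_ ?_
  · intro v hv
    rw [Finset.coe_filter, Set.mem_ofPred_eq, Fintype.mem_piFinset] at hv
    rw [Finset.coe_filter, Set.mem_ofPred_eq, grid, Fintype.mem_piFinset]
    refine ⟨fun i => Fintype.mem_piFinset.2 fun j => hv.1 (i, j), ?_⟩
    rw [← good_iff]
    exact hv.2
  · intro v _ w _ h
    funext ij
    exact congrFun (congrFun h ij.1) ij.2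

theorem count_box (F : Subfield A.End) (hF : Commutative A F) {m N : ℕ} (e : Fin N → A.Pts)
    (he : Independent A e) (H : ℕ) :
    (inBox {v : Fin m × Fin N → ℤ | ¬ GoodTuple A e (mat v)} H).ncard ≤
      m * (2 * H + 1) ^ ((m - 1) * (N + spanDim A F e)) := by
  classical
  have h1 := count_grid A F hF (m := m) e he (Finset.Icc (-(H : ℤ)) H) ⟨0, by simp⟩
  rw [card_Icc_int] at h1
  refine le_trans ?_ h1
  rw [← Set.ncard_coe_finset]
  refine Set.ncard_le_ncard ?_ (Finset.finite_toSet _)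
  rintro v ⟨h2, h3⟩
  rw [Finset.coe_filter, Set.mem_ofPred_eq, Fintype.mem_piFinset]
  exact ⟨fun i => Finset.mem_Icc.2 (abs_le.1 (h3 i)), h2⟩

/-- There is a good tuple, with few possible coefficients. -/
theorem exists_good (F : Subfield A.End) (hF : Commutative A F) {m N : ℕ} (e : Fin N → A.Pts)
    (he : Independent A e) (h : (m - 1) * spanDim A F e < N) :
    ∃ v : Fin m × Fin N → ℤ, GoodTuple A e (mat v) := by
  classical
  by_contra hno
  push Not at hno
  have h1 := count_grid A F hF (m := m) e he (Finset.Icc (-(m : ℤ)) m) ⟨0, by simp⟩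
  rw [card_Icc_int, Finset.filter_true_of_mem fun v _ => hno v, Fintype.card_piFinset, Finset.prod_const,
    card_Icc_int, Finset.card_univ, Fintype.card_prod, Fintype.card_fin, Fintype.card_fin] at h1
  rcases Nat.eq_zero_or_pos m with rfl | hm
  · simp at h1
  have h2 : (m - 1) * (N + spanDim A F e) + 1 ≤ m * N := by
    obtain ⟨a, rfl⟩ : ∃ a, m = a + 1 := ⟨m - 1, by omega⟩
    rw [Nat.add_sub_cancel] at h ⊢
    nlinarith
  have h3 : (2 * m + 1) ^ ((m - 1) * (N + spanDim A F e) + 1) ≤ (2 * m + 1) ^ (m * N) :=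
    Nat.pow_le_pow_right (by omega) h2
  have h4 : m * (2 * m + 1) ^ ((m - 1) * (N + spanDim A F e)) <
      (2 * m + 1) ^ ((m - 1) * (N + spanDim A F e) + 1) := by
    rw [pow_succ']
    exact Nat.mul_lt_mul_of_pos_right (by omega) (by positivity)
  omega

theorem exists_poly (F : Subfield A.End) (hF : Commutative A F) {m N : ℕ} (e : Fin N → A.Pts)
    (he : Independent A e) (h : (m - 1) * spanDim A F e < N)
    {T : Finset (MvPolynomial (Fin m × Fin N) ℤ)} (hT : {v | ¬ GoodTuple A e (mat v)} = Zer T) :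
    ∃ G ∈ T, G ≠ 0 := by
  obtain ⟨v₀, hv₀⟩ := exists_good A F hF e he h
  by_contra hno
  push Not at hno
  have h1 : v₀ ∈ {v | ¬ GoodTuple A e (mat v)} := by
    rw [hT]
    intro G hG
    rw [hno G hG, map_zero]
  exact h1 hv₀

end

/-- almost every direction -/
theorem directions (m N : ℕ) : ∀ᵐ ξ : Fin m × Fin N → ℝ, ∀ (p : ℕ) [Fact p.Prime] (n : ℕ)
    (A : SimpleAbelianVariety p n) (F : Subfield A.End) (e : Fin N → A.Pts),
    Commutative A F → Independent A e → ∀ δ : ℝ, 0 ≤ δ → δ < 1 →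
      (((m - 1) * (N + spanDim A F e) : ℕ) : ℝ) < (1 - δ) * ((m * N : ℕ) - 1) →
        ∃ T₀ : ℝ, ∀ T : ℝ, T₀ ≤ T → ∀ v : Fin m × Fin N → ℤ, (∀ i, |(v i : ℝ) - T * ξ i| ≤ T ^ δ) →
          GoodTuple A e (mat v) := by
  classical
  have h1 : ∀ (T : Finset (MvPolynomial (Fin m × Fin N) ℤ)) (θ : ℕ) (δ : ℚ), ∀ᵐ ξ : Fin m × Fin N → ℝ,
      (∀ H : ℕ, (inBox (Zer T) H).ncard ≤ m * (2 * H + 1) ^ θ) → 0 ≤ δ → δ < 1 →
      (θ : ℝ) < (1 - (δ : ℝ)) * ((m * N : ℕ) - 1) →
      ∃ T₀ : ℝ, ∀ t : ℝ, T₀ ≤ t → ∀ v ∈ Zer T, ¬ ∀ i, |(v i : ℝ) - t * ξ i| ≤ t ^ (δ : ℝ) := by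
    intro T θ δ
    by_cases hc : (∀ H : ℕ, (inBox (Zer T) H).ncard ≤ m * (2 * H + 1) ^ θ) ∧ 0 ≤ δ ∧ δ < 1 ∧
        (θ : ℝ) < (1 - (δ : ℝ)) * ((m * N : ℕ) - 1)
    · obtain ⟨c1, c2, c3, c4⟩ := hc
      filter_upwards [metric (Zer T) m θ c1 δ (by exact_mod_cast c2) (by exact_mod_cast c3)
        (by rw [Fintype.card_prod, Fintype.card_fin, Fintype.card_fin]; exact c4)] with ξ hξ _ _ _ _
      exact hξ
    · exact Filter.Eventually.of_forall fun ξ a b c d => absurd ⟨a, b, c, d⟩ hc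
  have hcount := countable_poly (Fin m × Fin N)
  filter_upwards [ae_all_iff.2 fun T => ae_all_iff.2 fun θ => ae_all_iff.2 fun δ => h1 T θ δ] with ξ hξ
  intro p _ n A F e hF he δ hδ0 hδ1 hlt
  obtain ⟨T, -, hT⟩ := bad_zer A (m := m) e
  -- a rational number above `δ`
  obtain ⟨δ', hδ', hδ1', hlt'⟩ : ∃ δ' : ℚ, δ < δ' ∧ (δ' : ℝ) < 1 ∧
      (((m - 1) * (N + spanDim A F e) : ℕ) : ℝ) < (1 - (δ' : ℝ)) * ((m * N : ℕ) - 1) := by
    have hc : Filter.Tendsto (fun x : ℝ => (1 - x) * (((m * N : ℕ) : ℝ) - 1)) (nhdsWithin δ (Set.Ioi δ))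
        (nhds ((1 - δ) * (((m * N : ℕ) : ℝ) - 1))) := by
      have : Continuous fun x : ℝ => (1 - x) * (((m * N : ℕ) : ℝ) - 1) := by fun_prop
      exact this.continuousAt.continuousWithinAt
    have h2 := hc.eventually (lt_mem_nhds hlt)
    have h3 : ∀ᶠ x in nhdsWithin δ (Set.Ioi δ), x < 1 := nhdsWithin_le_nhds (gt_mem_nhds hδ1)
    obtain ⟨u, hu, hu'⟩ := mem_nhdsGT_iff_exists_Ioo_subset.1 (h2.and h3)
    obtain ⟨q, hq1, hq2⟩ := exists_rat_btwn (Set.mem_Ioi.1 hu)
    have h4 := hu' ⟨hq1, hq2⟩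
    exact ⟨q, hq1, h4.2, h4.1⟩
  obtain ⟨T₀, hT₀⟩ := hξ T ((m - 1) * (N + spanDim A F e)) δ' (by
    intro H
    rw [← hT]
    exact count_box A F hF e he H) (by exact_mod_cast hδ0.trans hδ'.le) (by exact_mod_cast hδ1') hlt'
  refine ⟨max T₀ 1, fun t ht v hv => ?_⟩
  by_contra hbad
  refine hT₀ t ((le_max_left _ _).trans ht) v ?_ fun i => (hv i).trans ?_
  · rw [← hT]
    exact hbad
  · exact Real.rpow_le_rpow_of_exponent_le ((le_max_right _ _).trans ht) hδ'.le

end Pool.Agent.L5helper62.AD
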