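import Pool.Agent.L5helper62.AD.Met

/-!
# Sparse sets of integral points and the neighbourhoods of almost all rays, real exponents
-/

set_option autoImplicit false

open MeasureTheory Filter Topology

namespace Pool.Agent.L5helper62.AD

variable {ι : Type} [Fintype ι]

/-- **No point of a sparse set near almost all rays.** -/
theorem metricR (Z : Set (ι → ℤ)) (C θ : ℝ) (hC : 0 ≤ C) (hθ : 0 ≤ θ)
    (hZ : ∀ H : ℕ, ((inBox Z H).ncard : ℝ) ≤ C * (2 * (H : ℝ) + 1) ^ θ)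
    (δ : ℝ) (h0 : 0 ≤ δ) (h1 : δ < 1) (h : θ < (1 - δ) * ((Fintype.card ι : ℝ) - 1)) :
    ∀ᵐ ξ : ι → ℝ, ∃ T₀ : ℝ, ∀ T : ℝ, T₀ ≤ T → ∀ v ∈ Z, ¬ ∀ i, |(v i : ℝ) - T * ξ i| ≤ T ^ δ := by
  have hd : 0 < 1 - δ := by linarith
  suffices H : ∀ R : ℕ, ∀ᵐ ξ : ι → ℝ, (∀ i, |ξ i| ≤ R) → ∃ T₀ : ℝ, ∀ T : ℝ, T₀ ≤ T → ∀ v ∈ Z,
      ¬ ∀ i, |(v i : ℝ) - T * ξ i| ≤ T ^ δ by
    filter_upwards [ae_all_iff.2 H] with ξ hξ
    obtain ⟨R, hR⟩ := exists_nat_ge (∑ i, |ξ i|)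
    exact hξ R fun i => (Finset.single_le_sum (f := fun i => |ξ i|) (fun j _ => abs_nonneg _)
      (Finset.mem_univ i)).trans hR
  intro R
  set γ : ℝ := 1 / (1 - δ) with hγ
  set β : ℝ := δ / (1 - δ) with hβ
  have hγ0 : 0 < γ := by positivity
  have hβ0 : 0 ≤ β := by positivity
  have hβγ : β - γ = -1 := by
    rw [hβ, hγ, ← sub_div, ← neg_sub, neg_div, div_self hd.ne']
  have hβle : β ≤ γ := by linarith
  set K : ℝ := (1 + γ * R) * 2 ^ β with hK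
  have hK0 : 0 < K := by positivity
  set L : ℝ := R + K with hL
  have hL0 : 0 < L := by positivity
  let Hn : ℕ → ℕ := fun n => ⌈L * ((n : ℝ) + 1) ^ γ⌉₊
  let E : ℕ → Set (ι → ℝ) := fun n =>
    {ξ | ∃ v ∈ inBox Z (Hn n), ∀ i, |(v i : ℝ) - ((n : ℝ) + 1) ^ γ * ξ i| ≤ K * ((n : ℝ) + 1) ^ β}
  have hE : ∀ n, volume (E n) ≤ ENNReal.ofReal ((C * (2 * L + 3) ^ θ * (2 * K) ^ Fintype.card ι) *
      ((n : ℝ) + 1) ^ (γ * θ - Fintype.card ι)) := by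
    intro n
    have hx1 : (1 : ℝ) ≤ (n : ℝ) + 1 := by linarith [(Nat.cast_nonneg n : (0 : ℝ) ≤ n)]
    have hx0 : (0 : ℝ) < (n : ℝ) + 1 := by linarith
    refine (volume_near Z (Hn n) (Real.rpow_pos_of_pos hx0 γ) (by positivity)).trans
      (ENNReal.ofReal_le_ofReal ?_)
    have e1 : K * ((n : ℝ) + 1) ^ β / ((n : ℝ) + 1) ^ γ = K * ((n : ℝ) + 1) ^ (-1 : ℝ) := by
      rw [mul_div_assoc, ← Real.rpow_sub hx0, hβγ]
    have e2 : ((inBox Z (Hn n)).ncard : ℝ) ≤ C * (2 * L + 3) ^ θ * ((n : ℝ) + 1) ^ (γ * θ) := by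
      have a1 : ((inBox Z (Hn n)).ncard : ℝ) ≤ C * (2 * (Hn n : ℝ) + 1) ^ θ := hZ (Hn n)
      have hxg : 1 ≤ ((n : ℝ) + 1) ^ γ := Real.one_le_rpow hx1 hγ0.le
      have a2 : 2 * (Hn n : ℝ) + 1 ≤ (2 * L + 3) * ((n : ℝ) + 1) ^ γ := by
        have a3 : (Hn n : ℝ) < L * ((n : ℝ) + 1) ^ γ + 1 := Nat.ceil_lt_add_one (by positivity)
        nlinarith
      refine a1.trans ?_
      rw [Real.rpow_mul hx0.le, mul_assoc, ← Real.mul_rpow (by positivity) (by positivity)]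
      exact mul_le_mul_of_nonneg_left (Real.rpow_le_rpow (by positivity) a2 hθ) hC
    calc ((inBox Z (Hn n)).ncard : ℝ) * (2 * (K * ((n : ℝ) + 1) ^ β / ((n : ℝ) + 1) ^ γ)) ^ Fintype.card ι
        ≤ (C * (2 * L + 3) ^ θ * ((n : ℝ) + 1) ^ (γ * θ)) *
          (2 * (K * ((n : ℝ) + 1) ^ β / ((n : ℝ) + 1) ^ γ)) ^ Fintype.card ι :=
        mul_le_mul_of_nonneg_right e2 (by positivity)
      _ = (C * (2 * L + 3) ^ θ * (2 * K) ^ Fintype.card ι) *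
          ((n : ℝ) + 1) ^ (γ * θ - Fintype.card ι) := by
        rw [e1, ← mul_assoc 2 K, mul_pow (2 * K), ← Real.rpow_natCast (((n : ℝ) + 1) ^ (-1 : ℝ)),
          ← Real.rpow_mul hx0.le, Real.rpow_sub hx0, Real.rpow_natCast]
        rw [show (-1 : ℝ) * (Fintype.card ι : ℝ) = -(Fintype.card ι : ℝ) by ring,
          Real.rpow_neg hx0.le, Real.rpow_natCast]
        ring
  have hsum : Summable fun n : ℕ => (C * (2 * L + 3) ^ θ * (2 * K) ^ Fintype.card ι) *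
      ((n : ℝ) + 1) ^ (γ * θ - Fintype.card ι) := by
    refine Summable.mul_left _ ?_
    have hlt : γ * θ - (Fintype.card ι : ℝ) < -1 := by
      have : γ * θ < (Fintype.card ι : ℝ) - 1 := by
        rw [hγ, one_div, inv_mul_lt_iff₀ hd]
        exact h
      linarith
    have h2 := (summable_nat_add_iff 1).2 (Real.summable_nat_rpow.2 hlt)
    simpa using h2
  have hbc := ae_eventually_notMem (μ := (volume : Measure (ι → ℝ))) (s := E)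
    (ne_top_of_le_ne_top hsum.tsum_ofReal_ne_top (ENNReal.tsum_le_tsum hE))
  filter_upwards [hbc] with ξ hξ hR
  obtain ⟨N₀, hN₀⟩ := eventually_atTop.1 hξ
  refine ⟨max 1 (((N₀ : ℝ) + 2) ^ γ), fun T hT v hv hnear => ?_⟩
  have hT1 : 1 ≤ T := (le_max_left _ _).trans hT
  have hT0 : 0 < T := by linarith
  obtain ⟨b1, b2, b3, b4⟩ := near_power h0 h1 hT1
  have hN : N₀ + 1 < ⌊T ^ (1 - δ)⌋₊ + 1 := by
    have c1 : (N₀ : ℝ) + 2 ≤ T ^ (1 - δ) := by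
      have c2 := Real.rpow_le_rpow (by positivity) ((le_max_right _ _).trans hT) hd.le
      rw [← Real.rpow_mul (by positivity), hγ, one_div_mul_cancel hd.ne', Real.rpow_one] at c2
      exact c2
    have c3 : N₀ + 2 ≤ ⌊T ^ (1 - δ)⌋₊ := Nat.le_floor (by exact_mod_cast c1)
    omega
  obtain ⟨n, hn⟩ : ∃ n : ℕ, ⌊T ^ (1 - δ)⌋₊ = n + 1 := ⟨⌊T ^ (1 - δ)⌋₊ - 1, by omega⟩
  rw [hn] at b1 b2 b3 b4 hN
  push_cast at b1 b2 b3 b4
  refine hN₀ n (by omega) ?_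
  have hx0 : (0 : ℝ) < (n : ℝ) + 1 := by positivity
  have hx1 : (1 : ℝ) ≤ (n : ℝ) + 1 := b1
  have hTn : T ^ δ ≤ 2 ^ β * ((n : ℝ) + 1) ^ β := b4
  have hclose : ∀ i, |(v i : ℝ) - ((n : ℝ) + 1) ^ γ * ξ i| ≤ K * ((n : ℝ) + 1) ^ β := by
    intro i
    have d1 : |(v i : ℝ) - ((n : ℝ) + 1) ^ γ * ξ i| ≤
        |(v i : ℝ) - T * ξ i| + |T - ((n : ℝ) + 1) ^ γ| * |ξ i| := by
      rw [← abs_mul]
      refine le_trans (le_of_eq ?_) (abs_add_le _ _)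
      congr 1
      ring
    have d2 : |T - ((n : ℝ) + 1) ^ γ| ≤ γ * T ^ δ := by
      rw [abs_of_nonneg (by linarith)]
      exact b3
    have d3 : |T - ((n : ℝ) + 1) ^ γ| * |ξ i| ≤ γ * T ^ δ * R :=
      mul_le_mul d2 (hR i) (abs_nonneg _) (by positivity)
    calc |(v i : ℝ) - ((n : ℝ) + 1) ^ γ * ξ i| ≤ T ^ δ + γ * T ^ δ * R := d1.trans (add_le_add (hnear i) d3)
      _ = (1 + γ * R) * T ^ δ := by ring
      _ ≤ (1 + γ * R) * (2 ^ β * ((n : ℝ) + 1) ^ β) := mul_le_mul_of_nonneg_left hTn (by positivity)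
      _ = K * ((n : ℝ) + 1) ^ β := by rw [hK]; ring
  refine ⟨v, ⟨hv, fun i => ?_⟩, hclose⟩
  have e1 : |(v i : ℝ)| ≤ L * ((n : ℝ) + 1) ^ γ := by
    have f1 : |(v i : ℝ)| ≤ |(v i : ℝ) - ((n : ℝ) + 1) ^ γ * ξ i| + ((n : ℝ) + 1) ^ γ * |ξ i| := by
      have f2 := abs_add_le ((v i : ℝ) - ((n : ℝ) + 1) ^ γ * ξ i) (((n : ℝ) + 1) ^ γ * ξ i)
      rw [sub_add_cancel, abs_mul, abs_of_nonneg (Real.rpow_nonneg hx0.le γ)] at f2
      exact f2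
    have f3 : ((n : ℝ) + 1) ^ β ≤ ((n : ℝ) + 1) ^ γ := Real.rpow_le_rpow_of_exponent_le hx1 hβle
    have f4 : ((n : ℝ) + 1) ^ γ * |ξ i| ≤ ((n : ℝ) + 1) ^ γ * R :=
      mul_le_mul_of_nonneg_left (hR i) (Real.rpow_nonneg hx0.le γ)
    have f5 : K * ((n : ℝ) + 1) ^ β ≤ K * ((n : ℝ) + 1) ^ γ := mul_le_mul_of_nonneg_left f3 hK0.le
    rw [hL]
    have := hclose i
    linarith
  have e2 : |(v i : ℝ)| ≤ ((Hn n : ℕ) : ℝ) := e1.trans (Nat.le_ceil _)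
  have e3 : ((|v i| : ℤ) : ℝ) ≤ (((Hn n : ℕ) : ℤ) : ℝ) := by
    rw [Int.cast_abs]
    exact_mod_cast e2
  exact_mod_cast e3

end Pool.Agent.L5helper62.AD
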